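import Pool.Agent.H.MP_577a3c_an.B
set_option autoImplicit false
open Set MeasureTheory Metric
open scoped ENNReal NNReal

namespace Pool.Agent.Results.MP_577a3c_an.Fails

abbrev E (d : ℕ) := EuclideanSpace ℝ (Fin d)

/-- `g_B(x) = T_Ω (f 1_{(2B)^c}) (x)` for `B = ball c ρ`. -/
noncomputable def g {d : ℕ} (Ω f : E d → ℝ) (c : E d) (ρ : ℝ) (x : E d) : ℝ :=
  ∫ y, Ω (‖y‖⁻¹ • y) / ‖y‖ ^ d * (ball c (2 * ρ))ᶜ.indicator f (x - y)

/-- `O(f; B)`. -/
noncomputable def osc {d : ℕ} (Ω f : E d → ℝ) (c : E d) (ρ : ℝ) : ℝ≥0∞ :=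
  ((volume (ball c ρ))⁻¹ ^ 2 *
    ∫⁻ x in ball c ρ, ∫⁻ y in ball c ρ, ‖g Ω f c ρ x - g Ω f c ρ y‖ₑ ^ 2) ^ (1 / 2 : ℝ)

/-- `M_r(f; B)`. -/
noncomputable def mx {d : ℕ} (r : ℝ) (f : E d → ℝ) (c : E d) (ρ : ℝ) : ℝ≥0∞ :=
  ⨆ (c' : E d) (ρ' : ℝ) (_ : ball c ρ ⊆ ball c' ρ'),
    ((volume (ball c' ρ'))⁻¹ * ∫⁻ z in ball c' ρ', ‖f z‖ₑ ^ r) ^ (1 / r)

theorem result (d : ℕ) (hd : 2 ≤ d) :
    ∃ Ω : E d → ℝ, Measurable Ω ∧ (∀ u, |Ω u| ≤ 1) ∧
      ∫ u : sphere (0 : E d) 1, Ω u ∂(volume.toSphere) = 0 ∧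
      ∀ C : ℝ≥0, ∃ f : E d → ℝ, Measurable f ∧ (∃ A, ∀ z, |f z| ≤ A) ∧ HasCompactSupport f ∧
        ∀ r ∈ Icc (1 : ℝ) 2, C * mx r f 0 1 < osc Ω f 0 1 := by
  obtain ⟨n, rfl⟩ : ∃ n, d = n + 2 := ⟨d - 2, by omega⟩
  open Pool.Agent.H.Rough in
  refine ⟨Om, Om_meas, Om_le, Om_int n, fun C => ?_⟩
  set V := volume (ball (0 : E (n + 2)) 1) with hV
  have V0 : V ≠ 0 := (measure_ball_pos _ _ one_pos).ne'
  have V1 : V ≠ ⊤ := measure_ball_lt_top.ne
  let Bs : ℝ → Set (E (n + 2)) := fun ε => ball 0 1 ∩ {x | 1 / 2 < ε * x 1}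
  have oB : ∀ ε, IsOpen (Bs ε) := fun ε =>
    isOpen_ball.inter (isOpen_lt continuous_const (by fun_prop))
  have pB : ∀ ε : ℝ, (ε = 1 ∨ ε = -1) → volume (Bs ε) ≠ 0 := fun ε hε => by
    refine ((oB ε).measure_pos _ ⟨EuclideanSpace.single 1 (ε * (3 / 4)), ?_, ?_⟩).ne'
    · rcases hε with rfl | rfl <;> simp <;> norm_num [abs_of_pos]
    · rcases hε with rfl | rfl <;> simp <;> norm_num
  set β := V⁻¹ ^ 2 * (volume (Bs (-1)) * volume (Bs 1)) with hβ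
  have β0 : β ≠ 0 := mul_ne_zero (pow_ne_zero _ (ENNReal.inv_ne_zero.2 V1))
    (mul_ne_zero (pB _ (Or.inr rfl)) (pB _ (Or.inl rfl)))
  have fB : ∀ ε, volume (Bs ε) ≠ ⊤ := fun ε =>
    ((measure_mono inter_subset_left).trans_lt measure_ball_lt_top).ne
  have β1 : β ≠ ⊤ := ENNReal.mul_ne_top (ENNReal.pow_ne_top (ENNReal.inv_ne_top.2 V0))
    (ENNReal.mul_ne_top (fB _) (fB _))
  set M := max 1 (V⁻¹ * ENNReal.ofReal (2 ^ n * (2 * 2 ^ (n + 2)))) with hM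
  have M1 : M ≠ ⊤ := (max_lt ENNReal.one_lt_top (ENNReal.mul_lt_top
    (ENNReal.inv_lt_top.2 (pos_iff_ne_zero.2 V0)) ENNReal.ofReal_lt_top)).ne
  set X := (C * M) ^ 2 / β with hX
  have X1 : X ≠ ⊤ := ENNReal.div_ne_top
    (ENNReal.pow_ne_top (ENNReal.mul_ne_top ENNReal.coe_ne_top M1)) β0
  set κ : ℝ := 1 / (800 * (3 * (n + 2)) ^ (n + 2)) with hκ
  have κ0 : 0 < κ := by positivity
  obtain ⟨N, hN⟩ : ∃ N, X.toReal + 1 ≤ κ * ∑ k ∈ Finset.range N, 1 / (k + 2 : ℝ) := by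
    obtain ⟨N, hN⟩ := (Real.tendsto_sum_range_one_div_nat_succ_atTop.eventually_ge_atTop
      (2 * ((X.toReal + 1) / κ))).exists
    refine ⟨N, ?_⟩
    rw [← div_le_iff₀' κ0]
    have : ∑ k ∈ Finset.range N, 1 / (k + 1 : ℝ) ≤
        2 * ∑ k ∈ Finset.range N, 1 / (k + 2 : ℝ) := by
      rw [Finset.mul_sum]
      refine Finset.sum_le_sum fun k _ => ?_
      have : (0 : ℝ) ≤ k := Nat.cast_nonneg k
      rw [mul_one_div, div_le_div_iff₀ (by positivity) (by positivity)]; linarith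
    linarith
  set S := κ * ∑ k ∈ Finset.range N, 1 / (k + 2 : ℝ) with hS
  have S1 : 1 ≤ S := by linarith [ENNReal.toReal_nonneg (a := X)]
  open Pool.Agent.H.Rough in
  refine ⟨ff n N, ff_meas n N, ⟨N, fun z => ?_⟩, ?_, fun r hr => ?_⟩
  · rcases H.Rough.ff_cases n N z with ⟨h, -⟩ | ⟨k, hk, -, h⟩
    · simp [h]
    · rw [h, abs_of_nonneg (by positivity)]; exact_mod_cast hk
  · refine HasCompactSupport.intro (isCompact_closedBall 0 (2 * (n + 2) * H.Rough.RR N))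
      fun z hz => ?_
    rcases H.Rough.ff_cases n N z with ⟨h, -⟩ | ⟨k, hk, hz', -⟩
    · exact h
    · refine absurd ?_ hz
      rw [mem_closedBall_zero_iff]
      refine (H.Rough.ZZ_facts (by omega) hz').2.2.1.trans ?_
      have := H.Rough.RR_mono (show k + 1 ≤ N from hk)
      gcongr
  have m1 : mx r (H.Rough.ff n N) 0 1 ≤ M := by
    refine iSup_le fun c => iSup_le fun ρ => iSup_le fun h => ?_
    have h0 : (0 : E (n + 2)) ∈ ball c ρ := h (mem_ball_self one_pos)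
    have hρ := pos_of_mem_ball h0
    have a1 : (volume (ball c ρ))⁻¹ * ∫⁻ z in ball c ρ, ‖H.Rough.ff n N z‖ₑ ^ r ≤ M := by
      refine le_trans ?_ (le_max_right _ _)
      refine (mul_le_mul_right (H.Rough.avg_le n N hr.1 hr.2 h0) _).trans (le_of_eq ?_)
      have p : 0 < ρ ^ (n + 2) := by positivity
      rw [Measure.addHaar_ball_of_pos _ _ hρ, finrank_euclideanSpace_fin, ← hV,
        ENNReal.mul_inv (Or.inl (by simpa using p)) (Or.inl ENNReal.ofReal_ne_top),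
        show (2 : ℝ) ^ n * (2 * (2 * ρ) ^ (n + 2)) = ρ ^ (n + 2) * (2 ^ n * (2 * 2 ^ (n + 2))) by
          ring, ENNReal.ofReal_mul p.le, mul_comm _ V⁻¹, mul_assoc, ← mul_assoc _ (ENNReal.ofReal _),
        ENNReal.inv_mul_cancel (by simpa using p) ENNReal.ofReal_ne_top, one_mul]
    have r0 : 0 < r := by linarith [hr.1]
    refine (ENNReal.rpow_le_rpow a1 (by positivity)).trans ?_
    conv_rhs => rw [← ENNReal.rpow_one M]
    exact ENNReal.rpow_le_rpow_of_exponent_le (le_max_left _ _) (by rw [div_le_one r0]; exact hr.1)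
  have gl : ∀ ε : ℝ, (ε = 1 ∨ ε = -1) → ∀ x ∈ Bs ε, S ≤ ε * g H.Rough.Om (H.Rough.ff n N) 0 1 x := by
    intro ε hε x hx
    refine (H.Rough.g_low n N hε (mem_ball_zero_iff.1 hx.1) hx.2).trans (le_of_eq ?_)
    congr 1
    rw [g, ← integral_sub_left_eq_self _ volume x]
    refine integral_congr_ae (ae_of_all _ fun z => ?_)
    simp only [sub_sub_cancel]
    congr 1
    rcases H.Rough.ff_cases n N (x - z) with ⟨h, -⟩ | ⟨k, hk, hz', -⟩
    · rw [h, indicator_apply_eq_zero.2 fun _ => h]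
    · refine (indicator_of_mem ?_ _).symm
      have := (H.Rough.ZZ_facts (by omega) hz').2.1
      have := H.Rough.RR_ge (k := k + 1) (by omega)
      rw [mem_compl_iff, mem_ball_zero_iff]; linarith
  have o1 : ENNReal.ofReal S * (volume (Bs (-1)) * volume (Bs 1)) ≤
      ∫⁻ x in ball 0 1, ∫⁻ y in ball 0 1, ‖g H.Rough.Om (H.Rough.ff n N) 0 1 x -
        g H.Rough.Om (H.Rough.ff n N) 0 1 y‖ₑ ^ 2 := by
    refine le_trans ?_ (lintegral_mono_set (inter_subset_left : Bs 1 ⊆ _))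
    rw [← mul_assoc, ← setLIntegral_const (Bs 1)]
    refine setLIntegral_mono' (oB 1).measurableSet fun x hx => ?_
    refine le_trans ?_ (lintegral_mono_set (inter_subset_left : Bs (-1) ⊆ _))
    rw [← setLIntegral_const]
    refine setLIntegral_mono' (oB _).measurableSet fun y hy => ?_
    have h1 := gl 1 (Or.inl rfl) x hx
    have h2 := gl (-1) (Or.inr rfl) y hy
    rw [Real.enorm_eq_ofReal (by linarith), ← ENNReal.ofReal_pow (by linarith)]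
    exact ENNReal.ofReal_le_ofReal (by nlinarith)
  refine lt_of_le_of_lt (mul_le_mul_right m1 _) ?_
  refine lt_of_lt_of_le ?_ (ENNReal.rpow_le_rpow (mul_le_mul_right o1 _) (by norm_num))
  rw [one_div, ENNReal.lt_rpow_inv_iff (by norm_num), ← hV, mul_left_comm, ← hβ,
    ← ENNReal.div_lt_iff (Or.inl β0) (Or.inl β1), ENNReal.rpow_two, ← hX,
    ← ENNReal.ofReal_toReal X1]
  exact (ENNReal.ofReal_lt_ofReal_iff (by linarith)).2 (by linarith)

end Pool.Agent.Results.MP_577a3c_an.Fails
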